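import Mathlib

/-!
A fuzzy implication that satisfies only (CP) with respect to a (non-strong) fuzzy negation:
the crisp order implication `I x y = 1` if `x ≤ y` and `0` otherwise, with `N x = 1 - x ^ 2`.
-/

namespace Pool.Agent.Results.MP_e504dd_lc.OnlyCP



/-- `N x = 1 - x ^ 2`. -/
noncomputable def neg (x : unitInterval) : unitInterval := unitInterval.symm (x * x)

open Classical in
/-- `I x y = 1` if `x ≤ y` and `0` otherwise. -/
noncomputable def imp (x y : unitInterval) : unitInterval := if x ≤ y then 1 else 0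

theorem coe_neg (x : unitInterval) : ((neg x : unitInterval) : ℝ) = 1 - (x : ℝ) * x := by
  simp [neg]

theorem neg_le_neg_iff (x y : unitInterval) : neg y ≤ neg x ↔ x ≤ y := by
  rw [← Subtype.coe_le_coe, ← Subtype.coe_le_coe, coe_neg, coe_neg]
  have hx := x.2.1
  have hy := y.2.1
  constructor
  · intro h
    nlinarith
  · intro h
    nlinarith

/-- There are a fuzzy implication `I` and a fuzzy negation `N` such that `I` satisfies (CP) with
respect to `N` but neither (L-CP) nor (R-CP). -/
theorem result :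
    ∃ (I : unitInterval → unitInterval → unitInterval) (N : unitInterval → unitInterval),
      (Antitone N ∧ N 0 = 1 ∧ N 1 = 0) ∧
      ((∀ y, Antitone fun x => I x y) ∧ (∀ x, Monotone fun y => I x y) ∧
        I 0 0 = 1 ∧ I 1 1 = 1 ∧ I 1 0 = 0) ∧
      (∀ x y, I x y = I (N y) (N x)) ∧
      ¬ (∀ x y, I (N x) y = I (N y) x) ∧
      ¬ (∀ x y, I x (N y) = I y (N x)) := by
  classical
  have h01 : (0 : unitInterval) ≠ 1 := zero_ne_one
  let a : unitInterval := ⟨8 / 10, by norm_num, by norm_num⟩
  let b : unitInterval := ⟨4 / 10, by norm_num, by norm_num⟩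
  have ha : (a : ℝ) = 8 / 10 := rfl
  have hb : (b : ℝ) = 4 / 10 := rfl
  refine ⟨imp, neg, ⟨?_, ?_, ?_⟩, ⟨?_, ?_, ?_, ?_, ?_⟩, ?_, ?_, ?_⟩
  · intro x y h
    exact (neg_le_neg_iff x y).2 h
  · ext; simp [coe_neg]
  · ext; simp [coe_neg]
  · intro y x x' h
    show imp x' y ≤ imp x y
    unfold imp
    by_cases h1 : x' ≤ y
    · rw [if_pos h1, if_pos (h.trans h1)]
    · rw [if_neg h1]
      exact bot_le
  · intro x y y' h
    show imp x y ≤ imp x y'
    unfold imp
    by_cases h1 : x ≤ y
    · rw [if_pos h1, if_pos (h1.trans h)]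
    · rw [if_neg h1]
      exact bot_le
  · simp [imp]
  · simp [imp]
  · simp [imp]
  · intro x y
    unfold imp
    by_cases h1 : x ≤ y
    · rw [if_pos h1, if_pos ((neg_le_neg_iff x y).2 h1)]
    · rw [if_neg h1, if_neg (fun h => h1 ((neg_le_neg_iff x y).1 h))]
  · intro h
    have h1 := h a b
    have h2 : neg a ≤ b := by
      rw [← Subtype.coe_le_coe, coe_neg, ha, hb]; norm_num
    have h3 : ¬ neg b ≤ a := by
      rw [← Subtype.coe_le_coe, coe_neg, ha, hb]; norm_num
    unfold imp at h1
    rw [if_pos h2, if_neg h3] at h1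
    exact h01 h1.symm
  · intro h
    have h1 := h a b
    have h2 : a ≤ neg b := by
      rw [← Subtype.coe_le_coe, coe_neg, ha, hb]; norm_num
    have h3 : ¬ b ≤ neg a := by
      rw [← Subtype.coe_le_coe, coe_neg, ha, hb]; norm_num
    unfold imp at h1
    rw [if_pos h2, if_neg h3] at h1
    exact h01 h1.symm

end Pool.Agent.Results.MP_e504dd_lc.OnlyCP
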